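import Mathlib
import Pool.Agent.Helper68.UL.Int

/-! The saddle point method for an even entire function of exponent `|y|` above `b`. -/

set_option autoImplicit false
set_option maxHeartbeats 1000000

open Complex MeasureTheory Set Filter Topology Asymptotics Metric
open scoped ComplexConjugate

namespace Pool.Agent.Helper36.AL

open Pool.Agent.Helper68.UL (sad core_pos norm_sad_le cos_up)

noncomputable section

/-- the integrand -/
def ig (Φ : ℂ → ℂ) (n : ℕ) (r θ : ℝ) : ℂ := Φ (r * cexp (θ * I)) * cexp (-(2 * n * θ * I))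

lemma ig_cont {Φ : ℂ → ℂ} (hΦ : Differentiable ℂ Φ) (n : ℕ) (r : ℝ) : Continuous (ig Φ n r) := by
  unfold ig
  exact (hΦ.continuous.comp (by fun_prop)).mul (by fun_prop)

lemma cauchy_even {Φ : ℂ → ℂ} (hΦ : Differentiable ℂ Φ) (he : ∀ u, Φ (-u) = Φ u) (n : ℕ) {r : ℝ}
    (hr : 0 < r) : iteratedDeriv (2 * n) Φ 0 =
      (((2 * n).factorial / (Real.pi * r ^ (2 * n)) : ℝ) : ℂ) *
        ∫ θ in (-(Real.pi / 2))..(Real.pi / 2), ig Φ n r θ := by
  have h1 := (hΦ.diffContOnCl (s := Metric.ball 0 r)).circleIntegral_one_div_sub_center_pow_smul hr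
    (2 * n)
  have hcont := ig_cont hΦ n r
  -- the circle integral
  have h2 : (∮ z in C(0, r), (1 / (z - 0) ^ (2 * n + 1)) • Φ z) =
      I * ((r : ℂ) ^ (2 * n))⁻¹ * ∫ θ in (0 : ℝ)..(2 * Real.pi), ig Φ n r θ := by
    rw [circleIntegral, ← intervalIntegral.integral_const_mul]
    refine intervalIntegral.integral_congr fun θ _ => ?_
    simp only [deriv_circleMap, circleMap, zero_add, sub_zero, smul_eq_mul, ig]
    have hr0 : (r : ℂ) ≠ 0 := by exact_mod_cast hr.ne'
    have he0 : cexp (θ * I) ≠ 0 := Complex.exp_ne_zero _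
    have e1 : cexp (-(2 * n * θ * I)) = (cexp (θ * I) ^ (2 * n))⁻¹ := by
      rw [← Complex.exp_nat_mul, ← Complex.exp_neg]
      congr 1
      push_cast
      ring
    rw [e1, mul_pow, pow_succ, pow_succ]
    field_simp
  -- periodicity and evenness
  have hper : Function.Periodic (ig Φ n r) (2 * Real.pi) := by
    intro θ
    unfold ig
    have e1 : cexp (((θ + 2 * Real.pi : ℝ) : ℂ) * I) = cexp (θ * I) := by
      rw [show (((θ + 2 * Real.pi : ℝ) : ℂ) * I) = θ * I + 2 * Real.pi * I by push_cast; ring,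
        Complex.exp_add, Complex.exp_two_pi_mul_I, mul_one]
    have e2 : cexp (-(2 * n * ((θ + 2 * Real.pi : ℝ) : ℂ) * I)) = cexp (-(2 * n * θ * I)) := by
      rw [show (-(2 * n * ((θ + 2 * Real.pi : ℝ) : ℂ) * I)) =
        -(2 * n * θ * I) + ((-(2 * n) : ℤ) : ℂ) * (2 * Real.pi * I) by push_cast; ring,
        Complex.exp_add, Complex.exp_int_mul_two_pi_mul_I, mul_one]
    rw [e1, e2]
  have hpi : ∀ θ : ℝ, ig Φ n r (θ + Real.pi) = ig Φ n r θ := by
    intro θ
    unfold ig
    have e1 : cexp (((θ + Real.pi : ℝ) : ℂ) * I) = -cexp (θ * I) := by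
      rw [show (((θ + Real.pi : ℝ) : ℂ) * I) = θ * I + Real.pi * I by push_cast; ring,
        Complex.exp_add, Complex.exp_pi_mul_I]
      ring
    have e2 : cexp (-(2 * n * ((θ + Real.pi : ℝ) : ℂ) * I)) = cexp (-(2 * n * θ * I)) := by
      rw [show (-(2 * n * ((θ + Real.pi : ℝ) : ℂ) * I)) =
        -(2 * n * θ * I) + ((-n : ℤ) : ℂ) * (2 * Real.pi * I) by push_cast; ring,
        Complex.exp_add, Complex.exp_int_mul_two_pi_mul_I, mul_one]
    rw [e1, e2, mul_neg, he]
  have h3 : ∫ θ in (0 : ℝ)..(2 * Real.pi), ig Φ n r θ =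
      2 * ∫ θ in (-(Real.pi / 2))..(Real.pi / 2), ig Φ n r θ := by
    have a1 := hper.intervalIntegral_add_eq 0 (-(Real.pi / 2))
    rw [zero_add] at a1
    rw [a1, ← intervalIntegral.integral_add_adjacent_intervals (b := Real.pi / 2)
      (hcont.intervalIntegrable _ _) (hcont.intervalIntegrable _ _)]
    have a2 : ∫ θ in (Real.pi / 2)..(-(Real.pi / 2) + 2 * Real.pi), ig Φ n r θ =
        ∫ θ in (-(Real.pi / 2))..(Real.pi / 2), ig Φ n r (θ + Real.pi) := by
      rw [intervalIntegral.integral_comp_add_right]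
      congr 1 <;> ring
    rw [a2]
    simp only [hpi]
    ring
  rw [h2, h3] at h1
  have hf : ((2 * n).factorial : ℂ) ≠ 0 := by exact_mod_cast (2 * n).factorial_ne_zero
  have hr0 : (r : ℂ) ≠ 0 := by exact_mod_cast hr.ne'
  have hp : (Real.pi : ℂ) ≠ 0 := by exact_mod_cast Real.pi_ne_zero
  rw [smul_eq_mul] at h1
  push_cast
  have h4 : iteratedDeriv (2 * n) Φ 0 = ((2 * n).factorial : ℂ) / (2 * Real.pi * I) *
      (2 * Real.pi * I / ((2 * n).factorial : ℂ) * iteratedDeriv (2 * n) Φ 0) := by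
    field_simp
  rw [h4, ← h1]
  field_simp

/-- a holomorphic logarithm -/
lemma branch_gen {R : ℝ} (hR : 0 < R) {g : ℂ → ℂ} (hg : DifferentiableOn ℂ g (ball 0 R))
    (hne : ∀ z ∈ ball (0 : ℂ) R, g z ≠ 0) :
    ∃ φ : ℂ → ℂ, DifferentiableOn ℂ φ (ball 0 R) ∧ φ 0 = 0 ∧ ∀ z ∈ ball (0 : ℂ) R, g z = g 0 * exp (φ z) := by
  have hld : DifferentiableOn ℂ (fun w => deriv g w / g w) (ball 0 R) :=
    (hg.deriv isOpen_ball).div hg hne
  obtain ⟨F, hF⟩ := hld.isExactOn_ball
  refine ⟨fun w => F w - F 0, ?_, by simp, ?_⟩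
  · intro w hw
    exact ((hF w hw).differentiableAt.sub_const _).differentiableWithinAt
  · set H : ℂ → ℂ := fun w => g w * exp (-(F w - F 0)) with hH
    have hHd : ∀ w ∈ ball (0 : ℂ) R, HasDerivAt H 0 w := by
      intro w hw
      have h1 : HasDerivAt g (deriv g w) w := (hg.differentiableAt (isOpen_ball.mem_nhds hw)).hasDerivAt
      have h2 : HasDerivAt (fun w => exp (-(F w - F 0)))
          (exp (-(F w - F 0)) * (-(deriv g w / g w))) w :=
        ((hF w hw).sub_const _).neg.cexp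
      have h3 := h1.mul h2
      have e : deriv g w * exp (-(F w - F 0)) + g w *
          (exp (-(F w - F 0)) * (-(deriv g w / g w))) = 0 := by
        have := hne w hw
        field_simp
        ring
      rw [e] at h3
      exact h3
    intro w hw
    have hconst : H w = H 0 := by
      have hconv : Convex ℝ (ball (0 : ℂ) R) := convex_ball _ _
      exact (isOpen_ball.is_const_of_deriv_eq_zero hconv.isPreconnected
        (fun z hz => (hHd z hz).differentiableAt.differentiableWithinAt)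
        (fun z hz => (hHd z hz).deriv) hw (mem_ball_self hR))
    rw [hH] at hconst
    simp only [sub_self, neg_zero, Complex.exp_zero, mul_one] at hconst
    rw [← hconst, mul_assoc, ← Complex.exp_add]
    simp

/-- an exponentially small bound -/
lemma exp_small (K0 c : ℝ) (hc : 0 < c) : ∃ N : ℝ, ∀ n : ℝ, N ≤ n →
    Real.exp (K0 - c * n) * Real.sqrt n ≤ 1 / 100 := by
  have h1 : Tendsto (fun n : ℝ => n ^ 1 * Real.exp (-c * n)) atTop (𝓝 0) := by
    have := Real.tendsto_pow_mul_exp_neg_atTop_nhds_zero 1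
    have h2 := this.comp (tendsto_id.const_mul_atTop hc)
    have h3 := h2.const_mul (1 / c)
    rw [mul_zero] at h3
    refine h3.congr fun n => ?_
    simp only [Function.comp, id, pow_one]
    rw [show -(c * n) = -c * n by ring]
    field_simp
  have h2 : ∀ᶠ n : ℝ in atTop, n ^ 1 * Real.exp (-c * n) < 1 / 100 * Real.exp (-K0) :=
    h1.eventually_lt_const (by positivity)
  obtain ⟨N, hN⟩ := eventually_atTop.1 (h2.and (eventually_ge_atTop 1))
  refine ⟨N, fun n hn => ?_⟩
  obtain ⟨h3, h4⟩ := hN n hn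
  rw [pow_one] at h3
  have h5 : Real.sqrt n ≤ n := by
    rw [Real.sqrt_le_left (by linarith)]
    nlinarith
  calc Real.exp (K0 - c * n) * Real.sqrt n ≤ Real.exp (K0 - c * n) * n := by gcongr
    _ = Real.exp K0 * (n * Real.exp (-c * n)) := by
        rw [sub_eq_add_neg, Real.exp_add, show -(c * n) = -c * n by ring]; ring
    _ ≤ Real.exp K0 * (1 / 100 * Real.exp (-K0)) := by gcongr
    _ = 1 / 100 * (Real.exp K0 * Real.exp (-K0)) := by ring
    _ = 1 / 100 := by rw [← Real.exp_add, add_neg_cancel, Real.exp_zero, mul_one]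

/-- the maximum principle in a rectangle with a Gaussian factor -/
lemma gauss_rect {F : ℂ → ℂ} {r H t V K D : ℝ} (hr : 0 < r) (hD : 0 ≤ D) (hDH : D ≤ H) (hH : 1 ≤ H)
    (hF : ∀ w : ℂ, |w.re| ≤ r → |w.im - t| ≤ H → DifferentiableAt ℂ F w)
    (hV : 0 ≤ V) (hK : 0 ≤ K)
    (hside : ∀ w : ℂ, |w.re| = r → |w.im - t| ≤ H → ‖F w‖ ≤ V)
    (htop : ∀ w : ℂ, |w.re| ≤ r → |w.im - t| = H → ‖F w‖ ≤ V * Real.exp K) :
    ∀ w : ℂ, |w.re| ≤ r → |w.im - t| ≤ D → ‖F w‖ ≤ V * Real.exp (K / H ^ 2 * (r ^ 2 + D ^ 2)) := by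
  intro w hw1 hw2
  set lam : ℝ := K / H ^ 2 with hlam
  have hlam0 : 0 ≤ lam := by positivity
  set f : ℂ → ℂ := fun z => F z * cexp (lam * (z - t * I) ^ 2) with hf
  have hfn : ∀ z : ℂ, ‖f z‖ = ‖F z‖ * Real.exp (lam * (z.re ^ 2 - (z.im - t) ^ 2)) := by
    intro z
    rw [hf]
    simp only
    rw [norm_mul, Complex.norm_exp]
    congr 2
    simp [pow_two]
  set U : Set ℂ := Ioo (-r) r ×ℂ Ioo (t - H) (t + H) with hU
  have hUb : Bornology.IsBounded U :=
    (Metric.isBounded_Ioo (-r) r).reProdIm (Metric.isBounded_Ioo (t - H) (t + H))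
  have hcl' : closure U = Icc (-r) r ×ℂ Icc (t - H) (t + H) := by
    rw [hU, Complex.closure_reProdIm, closure_Ioo (by linarith), closure_Ioo (by linarith)]
  have hfd : DiffContOnCl ℂ f U := by
    refine DifferentiableOn.diffContOnCl ?_
    rw [hcl']
    intro z hz
    rw [Complex.mem_reProdIm] at hz
    have h1 := hF z (abs_le.2 hz.1) (by
      rw [abs_le]
      constructor <;> linarith [hz.2.1, hz.2.2])
    exact (h1.mul (by fun_prop)).differentiableWithinAt
  have hfr : ∀ z ∈ frontier U, ‖f z‖ ≤ V * Real.exp (lam * r ^ 2) := by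
    intro z hz
    rw [hU, Complex.frontier_reProdIm, closure_Ioo (by linarith), closure_Ioo (by linarith),
      frontier_Ioo (by linarith), frontier_Ioo (by linarith)] at hz
    rw [hfn]
    rcases hz with hz | hz
    · rw [Complex.mem_reProdIm] at hz
      obtain ⟨h1, h2⟩ := hz
      have h3 : |z.re| ≤ r := abs_le.2 h1
      have h4 : |z.im - t| = H := by
        rcases h2 with h2 | h2
        · rw [h2]; simp; linarith
        · rw [mem_singleton_iff] at h2; rw [h2]; simp; linarith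
      have h5 := htop z h3 h4
      have h6 : z.re ^ 2 ≤ r ^ 2 := by rw [← sq_abs]; gcongr
      have h7 : (z.im - t) ^ 2 = H ^ 2 := by rw [← sq_abs, h4]
      calc ‖F z‖ * Real.exp (lam * (z.re ^ 2 - (z.im - t) ^ 2))
          ≤ V * Real.exp K * Real.exp (lam * (r ^ 2 - H ^ 2)) := by rw [h7]; gcongr
        _ = V * Real.exp (lam * r ^ 2) := by
            rw [mul_assoc, ← Real.exp_add]
            congr 2
            rw [hlam]
            field_simp
            ring
    · rw [Complex.mem_reProdIm] at hz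
      obtain ⟨h1, h2⟩ := hz
      have h3 : |z.re| = r := by
        rcases h1 with h1 | h1
        · rw [h1, abs_neg, abs_of_pos hr]
        · rw [mem_singleton_iff] at h1; rw [h1, abs_of_pos hr]
      have h4 : |z.im - t| ≤ H := by
        rw [abs_le]
        constructor <;> linarith [h2.1, h2.2]
      have h5 := hside z h3 h4
      have h6 : z.re ^ 2 = r ^ 2 := by rw [← sq_abs, h3]
      have h7 : lam * (z.re ^ 2 - (z.im - t) ^ 2) ≤ lam * r ^ 2 := by
        rw [h6]
        gcongr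
        linarith [sq_nonneg (z.im - t)]
      gcongr
  have hcl : w ∈ closure U := by
    rw [hcl', Complex.mem_reProdIm]
    rw [abs_le] at hw2
    exact ⟨abs_le.1 hw1, by constructor <;> linarith [hw2.1, hw2.2]⟩
  have h := Complex.norm_le_of_forall_mem_frontier_norm_le hUb hfd hfr hcl
  rw [hfn] at h
  have h2 : 0 ≤ w.re ^ 2 := sq_nonneg _
  have h3 : (w.im - t) ^ 2 ≤ D ^ 2 := by rw [← sq_abs]; gcongr
  calc ‖F w‖ = ‖F w‖ * Real.exp (lam * (w.re ^ 2 - (w.im - t) ^ 2)) *
        Real.exp (-(lam * (w.re ^ 2 - (w.im - t) ^ 2))) := by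
        rw [mul_assoc, ← Real.exp_add]; simp
    _ ≤ V * Real.exp (lam * r ^ 2) * Real.exp (-(lam * (w.re ^ 2 - (w.im - t) ^ 2))) := by gcongr
    _ = V * Real.exp (lam * r ^ 2 - lam * (w.re ^ 2 - (w.im - t) ^ 2)) := by
        rw [mul_assoc, ← Real.exp_add]; rfl
    _ ≤ _ := by
        refine mul_le_mul_of_nonneg_left (Real.exp_le_exp.2 ?_) hV
        nlinarith


end

end Pool.Agent.Helper36.AL
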