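import Pool.Agent.Helper36.AL.Pre

/-! The saddle point method for an even entire function of exponent `|y|` above `b`. -/

set_option autoImplicit false
set_option maxHeartbeats 1000000

open Complex MeasureTheory Set Filter Topology Asymptotics Metric
open scoped ComplexConjugate

namespace Pool.Agent.Helper36.AL

open Pool.Agent.Helper68.UL (sad core_pos norm_sad_le cos_up)

noncomputable section

/-- hypotheses at one function -/
structure Fu (d ε b L : ℝ) (f : ℂ → ℂ) : Prop where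
  ent : Differentiable ℂ f
  ev : ∀ z, f (-z) = f z
  cj : ∀ z, f (conj z) = conj (f z)
  re : ∀ p : ℝ, ∃ c : ℝ, 0 ≤ c ∧ f p = c
  h1 : ∀ u : ℂ, b ≤ u.re → u.re ≤ 9 → |u.im| ≤ 9 →
    Real.exp (L * (u.re - ε)) ≤ ‖f u‖ ∧ ‖f u‖ ≤ Real.exp (L * (u.re + ε))
  h2 : ∀ u : ℂ, 0 ≤ u.re → u.re ≤ b → |u.im| ≤ 9 → ‖f u‖ ≤ Real.exp (L * (b + ε))

/-- first and second order bounds from a bound of a function -/
lemma two_bounds {φ : ℂ → ℂ} {d M : ℝ} (hd : 0 < d) (hφ : DifferentiableOn ℂ φ (ball 0 (2 * d)))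
    (h0 : φ 0 = 0) (hM : ∀ z : ℂ, ‖z‖ < 3 / 2 * d → ‖φ z‖ ≤ M) :
    ‖deriv φ 0‖ ≤ 5 * M / d ∧
      ∀ z : ℂ, ‖z‖ ≤ d → ‖φ z - deriv φ 0 * z‖ ≤ 25 * M / d ^ 2 * ‖z‖ ^ 2 := by
  have hM0 : 0 ≤ M := (norm_nonneg _).trans (hM 0 (by rw [norm_zero]; positivity))
  have hb : IsOpen (ball (0 : ℂ) (2 * d)) := isOpen_ball
  have e1 : ∀ z : ℂ, ‖z‖ < 13 / 10 * d → ‖deriv φ z‖ ≤ 5 * M / d := by
    intro z hz
    have h := Complex.norm_deriv_le_of_forall_mem_sphere_norm_le (c := z) (R := d / 5) (C := M)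
      (f := φ) (by positivity) ?_ ?_
    · refine h.trans (le_of_eq ?_)
      field_simp
    · refine DifferentiableOn.diffContOnCl (hφ.mono ?_)
      intro w hw
      have hw' := closure_ball_subset_closedBall hw
      rw [mem_closedBall, dist_eq_norm] at hw'
      rw [mem_ball_zero_iff]
      have := norm_le_norm_add_norm_sub' w z
      linarith
    · intro w hw
      rw [mem_sphere, dist_eq_norm] at hw
      apply hM
      have := norm_le_norm_add_norm_sub' w z
      linarith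
  have hd1 : DifferentiableOn ℂ (deriv φ) (ball 0 (2 * d)) := hφ.deriv hb
  have e2 : ∀ z : ℂ, ‖z‖ ≤ d → ‖deriv (deriv φ) z‖ ≤ 25 * M / d ^ 2 := by
    intro z hz
    have h := Complex.norm_deriv_le_of_forall_mem_sphere_norm_le (c := z) (R := d / 5)
      (C := 5 * M / d) (f := deriv φ) (by positivity) ?_ ?_
    · refine h.trans (le_of_eq ?_)
      field_simp
      ring
    · refine DifferentiableOn.diffContOnCl (hd1.mono ?_)
      intro w hw
      have hw' := closure_ball_subset_closedBall hw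
      rw [mem_closedBall, dist_eq_norm] at hw'
      rw [mem_ball_zero_iff]
      have := norm_le_norm_add_norm_sub' w z
      linarith
    · intro w hw
      rw [mem_sphere, dist_eq_norm] at hw
      apply e1
      have := norm_le_norm_add_norm_sub' w z
      linarith
  refine ⟨e1 0 (by rw [norm_zero]; positivity), fun z hz => ?_⟩
  have hsub : ∀ w : ℂ, ‖w‖ ≤ ‖z‖ → w ∈ ball (0 : ℂ) (2 * d) := by
    intro w hw
    rw [mem_ball_zero_iff]
    linarith
  have e3 : ∀ w : ℂ, ‖w‖ ≤ ‖z‖ → ‖deriv φ w - deriv φ 0‖ ≤ 25 * M / d ^ 2 * ‖z‖ := by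
    intro w hw
    have h := (convex_closedBall (0 : ℂ) ‖z‖).norm_image_sub_le_of_norm_deriv_le (f := deriv φ)
      (C := 25 * M / d ^ 2) (x := 0) (y := w) ?_ ?_ (by simp) (by simpa using hw)
    · refine h.trans ?_
      rw [sub_zero]
      gcongr
    · intro v hv
      rw [mem_closedBall_zero_iff] at hv
      exact (hd1 v (hsub v hv)).differentiableAt (hb.mem_nhds (hsub v hv))
    · intro v hv
      rw [mem_closedBall_zero_iff] at hv
      exact e2 v (hv.trans hz)
  have h := (convex_closedBall (0 : ℂ) ‖z‖).norm_image_sub_le_of_norm_deriv_le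
    (f := fun w => φ w - deriv φ 0 * w) (C := 25 * M / d ^ 2 * ‖z‖) (x := 0) (y := z) ?_ ?_
    (by simp) (by simp)
  · simp only [mul_zero, sub_zero, h0] at h
    refine h.trans (le_of_eq ?_)
    ring
  · intro v hv
    rw [mem_closedBall_zero_iff] at hv
    exact ((hφ v (hsub v hv)).differentiableAt (hb.mem_nhds (hsub v hv))).sub (by fun_prop)
  · intro v hv
    rw [mem_closedBall_zero_iff] at hv
    have hdv : HasDerivAt (fun w => φ w - deriv φ 0 * w) (deriv φ v - deriv φ 0) v := by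
      have a1 : HasDerivAt φ (deriv φ v) v :=
        ((hφ v (hsub v hv)).differentiableAt (hb.mem_nhds (hsub v hv))).hasDerivAt
      have a2 : HasDerivAt (fun w : ℂ => deriv φ 0 * w) (deriv φ 0) v := by
        simpa using (hasDerivAt_id v).const_mul (deriv φ 0)
      exact a1.sub a2
    rw [hdv.deriv]
    exact e3 v hv

variable {d ε b L : ℝ} {f : ℂ → ℂ}

/-- the local form near a real point -/
lemma Fu.loc (h : Fu d ε b L f) (hL : 0 < L) (hε : 0 < ε) (hd : 0 < d) (hd1 : d ≤ 1 / 2)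
    {u : ℝ} (hu1 : b + 3 * d ≤ u) (hu2 : u ≤ 5) :
    ∃ φ : ℂ → ℂ, φ 0 = 0 ∧
      (∀ z : ℂ, ‖z‖ < 2 * d → f (u + z) = f u * cexp (L * z + φ z)) ∧
      logDeriv f u = L + deriv φ 0 ∧ ‖deriv φ 0‖ ≤ 60 * L * ε / d ∧
      ∀ z : ℂ, ‖z‖ ≤ d → ‖φ z - deriv φ 0 * z‖ ≤ 300 * L * ε / d ^ 2 * ‖z‖ ^ 2 := by
  have hpos : 0 < 2 * d := by positivity
  have hreg : ∀ z : ℂ, ‖z‖ < 2 * d → b ≤ (u + z : ℂ).re ∧ (u + z : ℂ).re ≤ 9 ∧
      |(u + z : ℂ).im| ≤ 9 := by
    intro z hz
    have h1 := abs_le.1 ((Complex.abs_re_le_norm z).trans hz.le)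
    have h2 := (Complex.abs_im_le_norm z).trans hz.le
    rw [add_re, ofReal_re, add_im, ofReal_im, zero_add]
    refine ⟨by linarith, by linarith, by linarith⟩
  obtain ⟨g, hg⟩ : ∃ g : ℂ → ℂ, g = fun z => f (u + z) * cexp (-(L * (u + z))) := ⟨_, rfl⟩
  have hgn : ∀ z, ‖g z‖ = ‖f (u + z)‖ * Real.exp (-(L * (u + z : ℂ).re)) := by
    intro z
    rw [hg]
    simp only
    rw [norm_mul, Complex.norm_exp, neg_re, Complex.re_ofReal_mul]
  have hgd : Differentiable ℂ g := by
    rw [hg]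
    exact (h.ent.comp (by fun_prop)).mul (by fun_prop)
  have hgb : ∀ z : ℂ, ‖z‖ < 2 * d → Real.exp (-(L * ε)) ≤ ‖g z‖ ∧ ‖g z‖ ≤ Real.exp (L * ε) := by
    intro z hz
    obtain ⟨r1, r2, r3⟩ := hreg z hz
    obtain ⟨a1, a2⟩ := h.h1 _ r1 r2 r3
    rw [hgn]
    constructor
    · calc Real.exp (-(L * ε)) = Real.exp (L * ((u + z : ℂ).re - ε)) *
            Real.exp (-(L * (u + z : ℂ).re)) := by
            rw [← Real.exp_add]; congr 1; ring
        _ ≤ _ := mul_le_mul_of_nonneg_right a1 (Real.exp_pos _).le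
    · calc _ ≤ Real.exp (L * ((u + z : ℂ).re + ε)) * Real.exp (-(L * (u + z : ℂ).re)) :=
            mul_le_mul_of_nonneg_right a2 (Real.exp_pos _).le
        _ = _ := by rw [← Real.exp_add]; congr 1; ring
  obtain ⟨φ, hφd, hφ0, hφ⟩ := branch_gen hpos hgd.differentiableOn (fun z hz => by
    rw [mem_ball_zero_iff] at hz
    have := (hgb z hz).1
    intro h0
    rw [h0, norm_zero] at this
    exact absurd this (not_le.2 (Real.exp_pos _)))
  have hre : ∀ z ∈ ball (0 : ℂ) (2 * d), (φ z).re ≤ 2 * L * ε := by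
    intro z hz
    have h1 := hφ z hz
    rw [mem_ball_zero_iff] at hz
    have h2 := congrArg norm h1
    rw [norm_mul, Complex.norm_exp] at h2
    have h3 := (hgb z hz).2
    have h4 := (hgb 0 (by rw [norm_zero]; exact hpos)).1
    rw [h2] at h3
    have h5 : Real.exp (-(L * ε)) * Real.exp (φ z).re ≤ Real.exp (L * ε) :=
      (mul_le_mul_of_nonneg_right h4 (Real.exp_pos _).le).trans h3
    rw [← Real.exp_add, Real.exp_le_exp] at h5
    linarith
  have hM : ∀ z : ℂ, ‖z‖ < 3 / 2 * d → ‖φ z‖ ≤ 12 * L * ε := by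
    intro z hz
    have hz2 : z ∈ ball (0 : ℂ) (2 * d) := by rw [mem_ball_zero_iff]; linarith
    have h1 := Complex.borelCaratheodory_zero (M := 2 * L * ε) (by positivity) hφd hre hpos hz2 hφ0
    refine h1.trans ?_
    rw [div_le_iff₀ (by linarith)]
    have hz0 := norm_nonneg z
    have hLe : 0 < L * ε := by positivity
    nlinarith
  obtain ⟨b1, b2⟩ := two_bounds hd hφd hφ0 hM
  have hexp : ∀ z : ℂ, ‖z‖ < 2 * d → f (u + z) = f u * cexp (L * z + φ z) := by
    intro z hz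
    have h1 := hφ z (by rw [mem_ball_zero_iff]; exact hz)
    rw [hg] at h1
    simp only [add_zero] at h1
    have h2 : f (u + z) = f (u + z) * cexp (-(L * (u + z))) * cexp (L * (u + z)) := by
      rw [mul_assoc, ← Complex.exp_add]; simp
    rw [h2, h1, mul_assoc, mul_assoc, ← Complex.exp_add, ← Complex.exp_add]
    congr 2
    ring
  refine ⟨φ, hφ0, hexp, ?_, ?_, ?_⟩
  · -- logarithmic derivative
    have hfu : f u ≠ 0 := by
      have := (hgb 0 (by rw [norm_zero]; exact hpos)).1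
      rw [hgn, add_zero] at this
      intro h0
      rw [h0, norm_zero, zero_mul] at this
      exact absurd this (not_le.2 (Real.exp_pos _))
    have h1 : HasDerivAt (fun z : ℂ => f (u + z)) (deriv f u) 0 := by
      have := (h.ent (u + 0)).hasDerivAt.comp_const_add (u : ℂ) (0 : ℂ)
      rw [add_zero] at this
      exact this
    have hφ' : HasDerivAt φ (deriv φ 0) 0 :=
      (hφd.differentiableAt (isOpen_ball.mem_nhds (mem_ball_self hpos))).hasDerivAt
    have h2 : HasDerivAt (fun z : ℂ => f u * cexp (L * z + φ z))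
        (f u * (cexp (L * 0 + φ 0) * (L + deriv φ 0))) 0 := by
      have a1 : HasDerivAt (fun z : ℂ => (L : ℂ) * z) L 0 := by
        simpa using (hasDerivAt_id (0 : ℂ)).const_mul (L : ℂ)
      exact ((a1.add hφ').cexp).const_mul (f u)
    have h3 : (fun z : ℂ => f (u + z)) =ᶠ[𝓝 0] fun z : ℂ => f u * cexp (L * z + φ z) := by
      filter_upwards [isOpen_ball.mem_nhds (mem_ball_self hpos)] with z hz
      exact hexp z (by rwa [mem_ball_zero_iff] at hz)
    have h4 := (h1.congr_of_eventuallyEq h3.symm).unique h2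
    rw [hφ0, mul_zero, add_zero, Complex.exp_zero, one_mul] at h4
    rw [logDeriv_apply, h4]
    field_simp
  · refine b1.trans (le_of_eq ?_)
    ring
  · intro z hz
    refine (b2 z hz).trans (le_of_eq ?_)
    ring

lemma ld_conj (hf : Differentiable ℂ f) (hc : ∀ z, f (conj z) = conj (f z)) (z : ℂ) :
    logDeriv f (conj z) = conj (logDeriv f z) := by
  have hd : deriv f (conj z) = conj (deriv f z) := by
    have h1 : HasDerivAt (conj ∘ f ∘ conj) (conj (deriv f z)) (conj z) :=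
      (hf z).hasDerivAt.conj_conj
    have h2 : (conj ∘ f ∘ conj) = f := by
      funext w
      simp only [Function.comp]
      rw [hc, Complex.conj_conj]
    rw [h2] at h1
    exact h1.deriv
  rw [logDeriv_apply, logDeriv_apply, hd, hc, map_div₀]

lemma ld_real (hf : Differentiable ℂ f) (hc : ∀ z, f (conj z) = conj (f z)) (r : ℝ) :
    logDeriv f r = (((logDeriv f r).re : ℝ) : ℂ) := by
  have h := ld_conj hf hc (r : ℂ)
  rw [Complex.conj_ofReal] at h
  exact (Complex.conj_eq_iff_re.1 h.symm).symm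

lemma Fu.ne (h : Fu d ε b L f) {r : ℝ} (h1 : b ≤ r) (h2 : r ≤ 9) : f r ≠ 0 := by
  have := (h.h1 r (by simpa using h1) (by simpa using h2) (by simp)).1
  intro h0
  rw [h0, norm_zero] at this
  exact absurd this (not_le.2 (Real.exp_pos _))

/-- the saddle point -/
lemma Fu.saddle (h : Fu d ε b L f) (hL : 0 < L) (hε : 0 < ε) (hd : 0 < d) (hd1 : d ≤ 1 / 2)
    (hb : 0 ≤ b) (hεd : 300 * ε ≤ d ^ 2) {r0 : ℝ} (h1 : b + 4 * d ≤ r0) (h2 : r0 ≤ 4) :
    ∃ r : ℝ, r0 - d ≤ r ∧ r ≤ r0 + d ∧ (r : ℂ) * logDeriv f r = ((r0 * L : ℝ) : ℂ) := by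
  have hbd : ∀ r : ℝ, b + 3 * d ≤ r → r ≤ 5 → |(logDeriv f r).re - L| ≤ 60 * L * ε / d := by
    intro r a1 a2
    obtain ⟨φ, -, -, e1, e2, -⟩ := h.loc hL hε hd hd1 a1 a2
    have e3 : (logDeriv f r).re - L = (deriv φ 0).re := by
      rw [e1, add_re, ofReal_re]; ring
    rw [e3]
    exact (Complex.abs_re_le_norm _).trans e2
  have hk : 60 * L * ε / d ≤ L * (d / 5) := by
    rw [div_le_iff₀ hd]
    nlinarith
  obtain ⟨m, hm⟩ : ∃ m : ℝ → ℝ, m = fun r : ℝ => r * (logDeriv f r).re := ⟨_, rfl⟩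
  have hcont : ContinuousOn m (Icc (r0 - d) (r0 + d)) := by
    rw [hm]
    have c1 : Continuous fun r : ℝ => deriv f r :=
      (h.ent.contDiff (n := 1)).continuous_deriv le_rfl |>.comp Complex.continuous_ofReal
    have c2 : Continuous fun r : ℝ => f r := h.ent.continuous.comp Complex.continuous_ofReal
    have c3 : ContinuousOn (fun r : ℝ => logDeriv f r) (Icc (r0 - d) (r0 + d)) := by
      have : (fun r : ℝ => logDeriv f r) = fun r : ℝ => deriv f r / f r := by
        funext r; rw [logDeriv_apply]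
      rw [this]
      exact c1.continuousOn.div c2.continuousOn fun r hr =>
        h.ne (by linarith [hr.1]) (by linarith [hr.2])
    exact continuousOn_id.mul (Complex.continuous_re.comp_continuousOn c3)
  have hlo : m (r0 - d) ≤ r0 * L := by
    rw [hm]
    simp only
    have a1 := (abs_le.1 (hbd (r0 - d) (by linarith) (by linarith))).2
    have a2 : (logDeriv f ((r0 - d : ℝ) : ℂ)).re ≤ L * (1 + d / 5) := by linarith
    have a3 : 0 ≤ r0 - d := by linarith
    calc (r0 - d) * (logDeriv f ((r0 - d : ℝ) : ℂ)).re ≤ (r0 - d) * (L * (1 + d / 5)) :=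
          mul_le_mul_of_nonneg_left a2 a3
      _ = L * ((r0 - d) * (1 + d / 5)) := by ring
      _ ≤ L * r0 := by
          apply mul_le_mul_of_nonneg_left _ hL.le
          nlinarith
      _ = _ := by ring
  have hhi : r0 * L ≤ m (r0 + d) := by
    rw [hm]
    simp only
    have a1 := (abs_le.1 (hbd (r0 + d) (by linarith) (by linarith))).1
    have a2 : L * (1 - d / 5) ≤ (logDeriv f ((r0 + d : ℝ) : ℂ)).re := by linarith
    have a3 : 0 ≤ r0 + d := by linarith
    calc r0 * L = L * r0 := by ring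
      _ ≤ L * ((r0 + d) * (1 - d / 5)) := by
          apply mul_le_mul_of_nonneg_left _ hL.le
          nlinarith
      _ = (r0 + d) * (L * (1 - d / 5)) := by ring
      _ ≤ _ := mul_le_mul_of_nonneg_left a2 a3
  obtain ⟨r, hr, hmr⟩ := intermediate_value_Icc (by linarith) hcont ⟨hlo, hhi⟩
  refine ⟨r, hr.1, hr.2, ?_⟩
  rw [ld_real h.ent h.cj, ← Complex.ofReal_mul]
  rw [hm] at hmr
  simp only at hmr
  rw [hmr]

lemma exp_sub_one_le (w : ℂ) : ‖cexp w - 1‖ ≤ Real.exp ‖w‖ - 1 := by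
  have := Complex.norm_exp_sub_sum_le_exp_norm_sub_sum w 1
  simpa using this

/-- the coefficients are positive -/
theorem saddle_pos (d : ℝ) (hd : 0 < d) (hd1 : d ≤ 1 / 2) : ∃ L1 : ℝ, ∀ (b L : ℝ) (f : ℂ → ℂ)
    (n : ℕ), 0 ≤ b → L1 ≤ L → Fu d (d ^ 3 / 10 ^ 7) b L f → (b + 4 * d) * L ≤ 2 * n →
      (2 * n : ℝ) ≤ 4 * L → 0 < (iteratedDeriv (2 * n) f 0).re := by
  obtain ⟨θ₁, hθ₁⟩ : ∃ θ₁ : ℝ, θ₁ = d / 5 := ⟨_, rfl⟩
  have hθ0 : 0 < θ₁ := by rw [hθ₁]; positivity
  obtain ⟨N, hN⟩ := exp_small 0 (d * θ₁ ^ 2 / 5) (by positivity)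
  refine ⟨max (max 1 (10000 / (2 * d))) (max (25 / d ^ 2 / (2 * d)) (N / (2 * d))), ?_⟩
  intro b L f n hb hL1 h hn1 hn2
  have hL0 : 1 ≤ L := ((le_max_left _ _).trans (le_max_left _ _)).trans hL1
  have hL2 : 10000 / (2 * d) ≤ L := ((le_max_right _ _).trans (le_max_left _ _)).trans hL1
  have hL3 : 25 / d ^ 2 / (2 * d) ≤ L := ((le_max_left _ _).trans (le_max_right _ _)).trans hL1
  have hL4 : N / (2 * d) ≤ L := ((le_max_right _ _).trans (le_max_right _ _)).trans hL1
  have hL : 0 < L := by linarith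
  have hnL : 2 * d * L ≤ n := by nlinarith
  have hnL2 : (n : ℝ) ≤ 2 * L := by linarith
  have hn4 : 10000 ≤ (n : ℝ) := by
    rw [div_le_iff₀ (by positivity)] at hL2
    linarith
  have hn5 : 25 / d ^ 2 ≤ (n : ℝ) := by
    rw [div_le_iff₀ (by positivity)] at hL3
    linarith
  have hn6 : N ≤ (n : ℝ) := by
    rw [div_le_iff₀ (by positivity)] at hL4
    linarith
  have hn0 : (0 : ℝ) < n := by linarith
  obtain ⟨ε, hε⟩ : ∃ ε : ℝ, ε = d ^ 3 / 10 ^ 7 := ⟨_, rfl⟩
  rw [← hε] at h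
  have hε0 : 0 < ε := by rw [hε]; positivity
  have hd2 : d ^ 2 ≤ 1 / 4 := by nlinarith
  have hεd : 300 * ε ≤ d ^ 2 := by
    rw [hε]
    have : d ^ 3 = d * d ^ 2 := by ring
    rw [this]
    nlinarith [sq_nonneg d]
  obtain ⟨r, hr1, hr2, hr⟩ := h.saddle hL hε0 hd hd1 hb hεd (r0 := 2 * n / L)
    (by rw [le_div_iff₀ hL]; exact hn1) (by rw [div_le_iff₀ hL]; exact hn2)
  have hr0a : b + 4 * d ≤ 2 * n / L := by rw [le_div_iff₀ hL]; exact hn1
  have hr0b : 2 * n / L ≤ 4 := by rw [div_le_iff₀ hL]; exact hn2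
  have hrb : b + 3 * d ≤ r := by linarith
  have hr5 : r ≤ 5 := by linarith
  have hr0 : 0 < r := by linarith
  have hrn : (r : ℂ) * logDeriv f r = 2 * n := by
    rw [hr]
    have : 2 * (n : ℝ) / L * L = 2 * n := by field_simp
    rw [this]
    push_cast
    ring
  obtain ⟨φ, hφ0, hφ, hφ1, -, hφ2⟩ := h.loc hL hε0 hd hd1 hrb hr5
  obtain ⟨c, hc0, hc⟩ := h.re r
  have hfr : f r ≠ 0 := h.ne (by linarith) (by linarith)
  have hcpos : 0 < c := by
    rcases hc0.eq_or_lt with h0 | h0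
    · rw [← h0] at hc
      exact absurd hc (by simpa using hfr)
    · exact h0
  rw [cauchy_even h.ent h.ev n hr0, Complex.re_ofReal_mul]
  refine mul_pos (by positivity) ?_
  have hnorm : (∫ θ in (-(Real.pi / 2))..(Real.pi / 2), ig f n r θ).re =
      c * (∫ θ in (-(Real.pi / 2))..(Real.pi / 2), ig f n r θ / f r).re := by
    rw [← Complex.re_ofReal_mul, ← hc, ← intervalIntegral.integral_const_mul]
    congr 2
    funext θ
    field_simp
  rw [hnorm]
  refine mul_pos hcpos ?_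
  have hpi := Real.pi_gt_three
  have hlow : Real.exp (L * (r - ε)) ≤ ‖f r‖ := by
    have := (h.h1 r (by simpa using (by linarith : b ≤ r)) (by simpa using (by linarith : r ≤ 9))
      (by simp)).1
    simpa using this
  refine core_pos (n := n) (θ₁ := θ₁) (η := 1 / 1000) (δ := Real.exp (-(2 * d * θ₁ ^ 2 / 5 * L)))
    ((ig_cont h.ent n r).div_const _) hn4 (by norm_num) le_rfl ?_ ?_ (Real.exp_pos _).le ?_ ?_
  · have h2 : 1 / θ₁ ≤ Real.sqrt n := by
      rw [Real.le_sqrt (by positivity) hn0.le, div_pow, one_pow, hθ₁]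
      refine le_trans (le_of_eq ?_) hn5
      field_simp
      norm_num
    rw [div_le_iff₀ hθ0] at h2
    linarith
  · intro θ h1 h2
    obtain ⟨z, hz⟩ : ∃ z : ℂ, z = r * (cexp (θ * I) - 1) := ⟨_, rfl⟩
    have hzn : ‖z‖ ≤ 5 * |θ| := by
      rw [hz, norm_mul, Complex.norm_real, Real.norm_of_nonneg hr0.le]
      have e1 : ‖cexp (θ * I) - 1‖ ≤ |θ| := by
        rw [mul_comm]
        exact Real.norm_exp_I_mul_ofReal_sub_one_le
      exact mul_le_mul hr5 e1 (norm_nonneg _) (by norm_num)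
    have hzd : ‖z‖ ≤ d := by
      rw [hθ₁] at h1
      linarith
    have e1 : (r * cexp (θ * I) : ℂ) = r + z := by rw [hz]; ring
    have e2 : ig f n r θ / f r = cexp (L * z + φ z + -(2 * n * θ * I)) := by
      unfold ig
      rw [e1, hφ z (by linarith), Complex.exp_add (L * z + φ z)]
      field_simp
    have e3 : sad n θ = cexp (L * z + deriv φ 0 * z + -(2 * n * θ * I)) := by
      unfold sad
      congr 1
      rw [hφ1] at hrn
      rw [hz]
      have : (((n : ℕ) : ℝ) : ℂ) = (n : ℂ) := by push_cast; rfl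
      rw [this]
      linear_combination (-(cexp (θ * I) - 1)) * hrn
    have e4 : ig f n r θ / f r - sad n θ = sad n θ * (cexp (φ z - deriv φ 0 * z) - 1) := by
      rw [e2, e3, mul_sub, mul_one, ← Complex.exp_add]
      congr 2
      ring
    rw [e4, norm_mul]
    have e5 : ‖φ z - deriv φ 0 * z‖ ≤ 1 / 1000 * (n * θ ^ 2) := by
      refine (hφ2 z hzd).trans ?_
      have a1 : ‖z‖ ^ 2 ≤ 25 * θ ^ 2 := by
        calc ‖z‖ ^ 2 ≤ (5 * |θ|) ^ 2 := by gcongr
          _ = _ := by rw [mul_pow, sq_abs]; norm_num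
      have a2 : 300 * L * ε / d ^ 2 = 300 * L * d / 10 ^ 7 := by
        rw [hε]; field_simp
      rw [a2]
      have a3 : 0 ≤ 300 * L * d / 10 ^ 7 := by positivity
      calc 300 * L * d / 10 ^ 7 * ‖z‖ ^ 2 ≤ 300 * L * d / 10 ^ 7 * (25 * θ ^ 2) := by gcongr
        _ = (7500 / 10 ^ 7) * (d * L) * θ ^ 2 := by ring
        _ ≤ 1 / 1000 * (n * θ ^ 2) := by
            have a4 : (7500 / 10 ^ 7) * (d * L) ≤ 1 / 1000 * n := by nlinarith [mul_pos hd hL]
            calc _ ≤ 1 / 1000 * n * θ ^ 2 := by gcongr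
              _ = _ := by ring
    refine mul_le_mul (norm_sad_le hn0.le (h2.trans (by linarith))) ?_ (norm_nonneg _)
      (Real.exp_pos _).le
    refine (exp_sub_one_le _).trans ?_
    have := Real.exp_le_exp.2 e5
    linarith
  · have h3 := hN n hn6
    refine le_trans ?_ h3
    refine mul_le_mul_of_nonneg_right (Real.exp_le_exp.2 ?_) (Real.sqrt_nonneg _)
    have : 0 ≤ d * θ₁ ^ 2 / 5 := by positivity
    nlinarith
  · intro θ h1 h2
    have hθpi : |θ| ≤ Real.pi := h2.trans (by linarith)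
    have hcos := cos_up hθpi
    have hθsq : θ₁ ^ 2 ≤ θ ^ 2 := by rw [← sq_abs θ]; gcongr
    have hcos0 : 0 ≤ Real.cos θ := Real.cos_nonneg_of_mem_Icc (abs_le.1 h2)
    have hθ11 : θ₁ ^ 2 ≤ 1 := by
      rw [hθ₁]
      nlinarith
    have ere : (r * cexp (θ * I) : ℂ).re = r * Real.cos θ := by
      rw [Complex.re_ofReal_mul, Complex.exp_ofReal_mul_I_re]
    have eim : (r * cexp (θ * I) : ℂ).im = r * Real.sin θ := by
      rw [Complex.im_ofReal_mul, Complex.exp_ofReal_mul_I_im]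
    have him : |(r * cexp (θ * I) : ℂ).im| ≤ 9 := by
      rw [eim, abs_mul, abs_of_pos hr0]
      have := Real.abs_sin_le_one θ
      nlinarith [abs_nonneg (Real.sin θ)]
    have hign : ‖ig f n r θ / f r‖ = ‖f (r * cexp (θ * I))‖ / ‖f r‖ := by
      unfold ig
      rw [norm_div, norm_mul]
      have : ‖cexp (-(2 * n * θ * I))‖ = 1 := by
        have e : (-(2 * n * θ * I) : ℂ) = ((-(2 * n * θ) : ℝ) : ℂ) * I := by push_cast; ring
        rw [e, Complex.norm_exp_ofReal_mul_I]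
      rw [this, mul_one]
    rw [hign, div_le_iff₀ (norm_pos_iff.2 hfr)]
    have hbig : ‖f (r * cexp (θ * I))‖ ≤ Real.exp (L * (r - 3 * d * θ₁ ^ 2 / 5 + ε)) := by
      have hcc : r * Real.cos θ ≤ r - 3 * d * θ₁ ^ 2 / 5 := by
        have a1 : Real.cos θ ≤ 1 - θ₁ ^ 2 / 5 := by linarith
        calc r * Real.cos θ ≤ r * (1 - θ₁ ^ 2 / 5) := mul_le_mul_of_nonneg_left a1 hr0.le
          _ = r - r * (θ₁ ^ 2 / 5) := by ring
          _ ≤ r - 3 * d * (θ₁ ^ 2 / 5) := by
              have : 3 * d * (θ₁ ^ 2 / 5) ≤ r * (θ₁ ^ 2 / 5) :=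
                mul_le_mul_of_nonneg_right (by linarith) (by positivity)
              linarith
          _ = _ := by ring
      rcases le_total b (r * Real.cos θ) with hcase | hcase
      · refine (h.h1 _ (by rw [ere]; exact hcase) ?_ him).2.trans ?_
        · rw [ere]
          nlinarith [Real.cos_le_one θ]
        · rw [ere]
          refine Real.exp_le_exp.2 (mul_le_mul_of_nonneg_left ?_ hL.le)
          linarith
      · refine (h.h2 _ (by rw [ere]; positivity) (by rw [ere]; exact hcase) him).trans ?_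
        refine Real.exp_le_exp.2 (mul_le_mul_of_nonneg_left ?_ hL.le)
        have : 3 * d * θ₁ ^ 2 / 5 ≤ 3 * d := by nlinarith
        linarith
    refine hbig.trans ?_
    calc Real.exp (L * (r - 3 * d * θ₁ ^ 2 / 5 + ε))
        ≤ Real.exp (-(2 * d * θ₁ ^ 2 / 5 * L) + L * (r - ε)) := by
          refine Real.exp_le_exp.2 ?_
          have a1 : 2 * ε ≤ d * θ₁ ^ 2 / 5 := by
            rw [hε, hθ₁]
            have : 0 < d ^ 3 := by positivity
            have e : d * (d / 5) ^ 2 / 5 = d ^ 3 / 125 := by ring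
            rw [e]
            linarith
          have a2 := mul_le_mul_of_nonneg_left a1 hL.le
          nlinarith
      _ = Real.exp (-(2 * d * θ₁ ^ 2 / 5 * L)) * Real.exp (L * (r - ε)) := Real.exp_add _ _
      _ ≤ _ := mul_le_mul_of_nonneg_left hlow (Real.exp_pos _).le

end

end Pool.Agent.Helper36.AL
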