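import Pool.Agent.Helper75.AL.Sts
import Pool.Agent.Helper36.AL.Sad

/-! W5: a zero-free box gives the Laguerre inequalities. -/

set_option autoImplicit false
set_option maxHeartbeats 1000000

open Complex MeasureTheory Set Filter Topology Asymptotics Metric
open scoped ComplexConjugate

namespace Pool.Agent.Helper36.AL

open Pool.Agent.Helper75.LQ Pool.Agent.Helper75.AL

noncomputable section

lemma S_im (g : ℂ → ℂ) (hc : ∀ z, g (conj z) = conj (g z)) (s : ℝ) (u : ℂ) :
    ‖S g s u‖ = ‖g ((s - u.im : ℝ) + u.re * I)‖ * ‖g ((s + u.im : ℝ) + u.re * I)‖ := by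
  unfold S
  have e1 : (s + I * u : ℂ) = ((s - u.im : ℝ) + u.re * I) := by
    apply Complex.ext <;> simp
    ring
  have e2 : (s - I * u : ℂ) = conj ((s + u.im : ℝ) + u.re * I) := by
    apply Complex.ext <;> simp
  rw [norm_mul, e1, e2, hc, Complex.norm_conj]

lemma S_im' (g : ℂ → ℂ) (s : ℝ) (u : ℂ) :
    ‖S g s (-u)‖ = ‖S g s u‖ := by
  unfold S
  rw [mul_comm]
  congr 2
  · congr 1; ring
  · congr 1; ring

/-- **W5** -/
theorem w5 (hW2 : St_W2) : St_W5 := by
  intro G L b κ hG hb hκ hbκ hN R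
  -- large κ
  rcases lt_or_ge 2 κ with hκ2 | hκ2
  · filter_upwards [hG.lim.eventually_gt_atTop 0] with j hj s hs m hm1 hm2
    exfalso
    nlinarith
  obtain ⟨d, hd⟩ : ∃ d : ℝ, d = (2 * κ - b) / 8 := ⟨_, rfl⟩
  have hd0 : 0 < d := by rw [hd]; linarith
  have hd1 : d ≤ 1 / 2 := by rw [hd]; linarith
  obtain ⟨b', hb'⟩ : ∃ b' : ℝ, b' = b + 4 * d := ⟨_, rfl⟩
  have hb'1 : b' + 4 * d = 2 * κ := by rw [hb', hd]; ring
  have hb'0 : 0 < b' := by rw [hb']; positivity
  have hb'4 : b' ≤ 4 := by linarith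
  obtain ⟨L1, hL1⟩ := saddle_pos d hd0 hd1
  obtain ⟨ε, hε⟩ : ∃ ε : ℝ, ε = d ^ 3 / 10 ^ 7 := ⟨_, rfl⟩
  rw [← hε] at hL1
  have hε0 : 0 < ε := by rw [hε]; positivity
  -- parameters
  obtain ⟨η, hη⟩ : ∃ η : ℝ, η = min (ε / 4) (4 * d) := ⟨_, rfl⟩
  have hη0 : 0 < η := by rw [hη]; positivity
  have hη1 : η ≤ ε / 4 := by rw [hη]; exact min_le_left _ _
  have hη2 : η ≤ 4 * d := by rw [hη]; exact min_le_right _ _
  obtain ⟨H, hH⟩ : ∃ H : ℝ, H = max 10 (2000 / ε) := ⟨_, rfl⟩
  have hH10 : 10 ≤ H := by rw [hH]; exact le_max_left _ _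
  have hH2 : 2000 / ε ≤ H := by rw [hH]; exact le_max_right _ _
  obtain ⟨X, hX⟩ : ∃ X : ℝ, X = |R| + H + 10 := ⟨_, rfl⟩
  have hR0 := abs_nonneg R
  obtain ⟨η', hη'⟩ : ∃ η' : ℝ, η' = 1 / (1 + (X + 5) ^ 2) := ⟨_, rfl⟩
  have hη'0 : 0 < η' := by rw [hη']; positivity
  filter_upwards [hG.lim.eventually_ge_atTop (max 1 L1), hW2 G L b hG hb hN η hη0 X,
    hG.ok η' hη'0 X] with j hj hw2 hok s hs m hm1 hm2
  have hLj1 : 1 ≤ L j := (le_max_left _ _).trans hj
  have hLj2 : L1 ≤ L j := (le_max_right _ _).trans hj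
  have hL0 : 0 < L j := by linarith
  have hs' : |s| ≤ |R| := hs.trans (le_abs_self R)
  have hcj : ∀ z, G j (conj z) = conj (G j z) := hG.re j
  have hdist : ∀ t : ℝ, |t| ≤ H → |s - t| ≤ X ∧ |s + t| ≤ X := by
    intro t ht
    have a1 := abs_sub s t
    have a2 := abs_add_le s t
    constructor <;> linarith
  have hent : Differentiable ℂ (S (G j) s) := by
    unfold S
    exact ((hG.ent j).comp (by fun_prop)).mul ((hG.ent j).comp (by fun_prop))
  -- above `b'`
  have hup : ∀ u : ℂ, b' ≤ u.re → u.re ≤ 9 → |u.im| ≤ H →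
      Real.exp (L j * (u.re - ε / 2)) ≤ ‖S (G j) s u‖ ∧
        ‖S (G j) s u‖ ≤ Real.exp (L j * (u.re + ε / 2)) := by
    intro u h1 h2 h3
    rw [S_im _ hcj]
    obtain ⟨x1, x2⟩ := hdist _ h3
    have key : ∀ x : ℝ, |x| ≤ X → Real.exp (L j * (u.re / 2 - ε / 4)) ≤ ‖G j (x + u.re * I)‖ ∧
        ‖G j (x + u.re * I)‖ ≤ Real.exp (L j * (u.re / 2 + ε / 4)) := by
      intro x hx
      have e1 : (x + u.re * I : ℂ).re = x := by simp
      have e2 : (x + u.re * I : ℂ).im = u.re := by simp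
      have h4 := hw2 (x + u.re * I) (by rw [e1]; exact hx) (by rw [e2]; linarith)
        (by rw [e2]; exact h2)
      rw [e2] at h4
      constructor
      · refine le_trans (Real.exp_le_exp.2 ?_) h4.1
        exact mul_le_mul_of_nonneg_left (by linarith) hL0.le
      · refine h4.2.trans (Real.exp_le_exp.2 ?_)
        exact mul_le_mul_of_nonneg_left (by linarith) hL0.le
    obtain ⟨a1, a2⟩ := key _ x1
    obtain ⟨a3, a4⟩ := key _ x2
    constructor
    · calc Real.exp (L j * (u.re - ε / 2)) =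
          Real.exp (L j * (u.re / 2 - ε / 4)) * Real.exp (L j * (u.re / 2 - ε / 4)) := by
            rw [← Real.exp_add]; congr 1; ring
        _ ≤ _ := mul_le_mul a1 a3 (Real.exp_pos _).le (norm_nonneg _)
    · calc _ ≤ Real.exp (L j * (u.re / 2 + ε / 4)) * Real.exp (L j * (u.re / 2 + ε / 4)) :=
            mul_le_mul a2 a4 (norm_nonneg _) (Real.exp_pos _).le
        _ = _ := by rw [← Real.exp_add]; congr 1; ring
  -- below `b'`
  have hgr : ∀ u : ℂ, |u.re| ≤ b' → |u.im| ≤ H → ‖S (G j) s u‖ ≤ Real.exp (L j * 7) := by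
    intro u h1 h2
    rw [S_im _ hcj]
    obtain ⟨x1, x2⟩ := hdist _ h2
    have key : ∀ x : ℝ, |x| ≤ X → ‖G j (x + u.re * I)‖ ≤ Real.exp (L j * (7 / 2)) := by
      intro x hx
      have e2 : (x + u.re * I : ℂ).im = u.re := by simp
      have h4 := hok.grow (x + u.re * I)
      rw [e2] at h4
      refine h4.trans (Real.exp_le_exp.2 (mul_le_mul_of_nonneg_left ?_ hL0.le))
      have h5 : ‖(x + u.re * I : ℂ)‖ ≤ X + 5 := by
        refine (norm_add_le _ _).trans ?_
        rw [norm_mul, Complex.norm_real, Complex.norm_real, Complex.norm_I, mul_one,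
          Real.norm_eq_abs, Real.norm_eq_abs]
        linarith
      have h6 : η' * (1 + ‖(x + u.re * I : ℂ)‖ ^ 2) ≤ 1 := by
        rw [hη', one_div, inv_mul_le_iff₀ (by positivity), mul_one]
        gcongr
      linarith
    calc _ ≤ Real.exp (L j * (7 / 2)) * Real.exp (L j * (7 / 2)) :=
          mul_le_mul (key _ x1) (key _ x2) (norm_nonneg _) (Real.exp_pos _).le
      _ = _ := by rw [← Real.exp_add]; congr 1; ring
  have hlow : ∀ u : ℂ, 0 ≤ u.re → u.re ≤ b' → |u.im| ≤ 9 →
      ‖S (G j) s u‖ ≤ Real.exp (L j * (b' + ε)) := by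
    intro u h1 h2 h3
    have hres := gauss_rect (F := S (G j) s) (r := b') (H := H) (t := 0)
      (V := Real.exp (L j * (b' + ε / 2))) (K := L j * 7) (D := 9) hb'0 (by norm_num) (by linarith)
      (by linarith) (fun w _ _ => hent w) (Real.exp_pos _).le (by positivity) ?_ ?_ u
      (by rw [abs_of_nonneg h1]; exact h2) (by rw [sub_zero]; exact h3)
    · refine hres.trans ?_
      rw [← Real.exp_add]
      refine Real.exp_le_exp.2 ?_
      have hHH : 2000 / ε ≤ H ^ 2 := by nlinarith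
      have hHpos : 0 < H ^ 2 := by positivity
      have h5 : L j * 7 / H ^ 2 * (b' ^ 2 + 9 ^ 2) ≤ L j * (ε / 2) := by
        have h6 : b' ^ 2 + 9 ^ 2 ≤ 97 := by nlinarith
        have h7 : 2000 ≤ ε * H ^ 2 := by
          rw [div_le_iff₀ hε0] at hHH
          linarith
        calc L j * 7 / H ^ 2 * (b' ^ 2 + 9 ^ 2) ≤ L j * 7 / H ^ 2 * 97 := by gcongr
          _ = L j * (679 / H ^ 2) := by ring
          _ ≤ L j * (ε / 2) := by
              apply mul_le_mul_of_nonneg_left _ hL0.le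
              rw [div_le_iff₀ hHpos]
              linarith
      nlinarith
    · intro w hw1 hw2
      rw [sub_zero] at hw2
      rcases le_total 0 w.re with h0 | h0
      · rw [abs_of_nonneg h0] at hw1
        have := (hup w hw1.ge (by linarith) hw2).2
        rwa [hw1] at this
      · rw [abs_of_nonpos h0] at hw1
        have h5 : (-w).re = b' := by rw [neg_re]; exact hw1
        have := (hup (-w) h5.ge (by rw [h5]; linarith) (by rw [neg_im, abs_neg]; exact hw2)).2
        rwa [h5, S_im'] at this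
    · intro w hw1 hw2
      rw [sub_zero] at hw2
      refine (hgr w hw1 hw2.le).trans ?_
      rw [← Real.exp_add]
      refine Real.exp_le_exp.2 ?_
      have : 0 ≤ L j * (b' + ε / 2) := by positivity
      linarith
  have hFu : Fu d ε b' (L j) (S (G j) s) := by
    refine ⟨hent, ?_, ?_, ?_, ?_, hlow⟩
    · intro z
      unfold S
      rw [mul_comm]
      congr 1
      · congr 1; ring
      · congr 1; ring
    · intro z
      unfold S
      rw [map_mul, ← hcj, ← hcj, map_add, map_sub, map_mul, Complex.conj_ofReal, Complex.conj_I,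
        mul_comm]
      congr 1
      · congr 1; ring
      · congr 1; ring
    · intro p
      refine ⟨‖G j (s + p * I)‖ ^ 2, by positivity, ?_⟩
      unfold S
      have e1 : (s - I * p : ℂ) = conj (s + I * p : ℂ) := by
        rw [map_add, map_mul, Complex.conj_ofReal, Complex.conj_ofReal, Complex.conj_I]; ring
      rw [e1, hcj, Complex.mul_conj, Complex.normSq_eq_norm_sq, mul_comm I]
    · intro u h1 h2 h3
      obtain ⟨a1, a2⟩ := hup u h1 h2 (h3.trans (by linarith))
      constructor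
      · refine le_trans (Real.exp_le_exp.2 ?_) a1
        exact mul_le_mul_of_nonneg_left (by linarith) hL0.le
      · refine a2.trans (Real.exp_le_exp.2 ?_)
        exact mul_le_mul_of_nonneg_left (by linarith) hL0.le
  have hpos := hL1 b' (L j) (S (G j) s) m hb'0.le hLj2 hFu (by rw [hb'1]; linarith) (by linarith)
  unfold Lag tc
  have e : (iteratedDeriv (2 * m) (S (G j) s) 0 / ((2 * m).factorial : ℂ)).re =
      (iteratedDeriv (2 * m) (S (G j) s) 0).re / ((2 * m).factorial : ℝ) := by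
    rw [← Complex.ofReal_natCast, Complex.div_ofReal_re]
  rw [e]
  positivity

end

end Pool.Agent.Helper36.AL
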